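import Pool.Agent.Helper165.P1.Res2

set_option autoImplicit false

open Polynomial Pool.Agent.Helper165.P1

namespace Pool.Agent.Results.MP_0fba91_ag.PicOneNotDivisible

/-- Sanity check: principal divisors have degree zero. -/
theorem degree_principal {C : Type*} [Field C] [CharZero C] [IsAlgClosed C] {f : C[X]}
    (h1 : f.natDegree = 6) (h2 : f.Separable) (D : Pt f →₀ ℤ) (hD : D ∈ Prin f) :
    degDiv f D = 0 := degDiv_of_mem_Prin ⟨h1, h2⟩ hD

/-- Sanity check: the class of `Pic ^ 1` does not depend on the divisor class used to define it. -/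
theorem class_independent {k K : Type*} [Field k] [Field K] [CharZero K] [Algebra k K]
    [Algebra.IsAlgebraic k K] (f : k[X]) (c d : KPic K f)
    (hc : c ∈ PicOne K f) (hd : d ∈ PicOne K f) :
    picOneClass K f c hc = picOneClass K f d hd := picOneClass_eq K f c d hc hd

/-- There are a field `k` of characteristic zero, with a separable closure `K`, and a separable
polynomial `f` of degree six over `k`, such that for the curve `X : y ^ 2 = f x` of genus two over
`k` with Jacobian `J` the class of `Pic ^ 1` of `X` is not divisible by two in `H ^ 1 (k, J)`. -/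
theorem result : ∃ (k K : Type) (_ : Field k) (_ : Field K) (_ : CharZero K) (_ : Algebra k K)
    (_ : Algebra.IsAlgebraic k K) (f : k[X]),
    IsSepClosure k K ∧ f.natDegree = 6 ∧ f.Separable ∧
    (PicOne K f).Nonempty ∧
    ∀ (c : KPic K f) (hc : c ∈ PicOne K f),
      ¬ ∃ z : H1J K f, (2 : ℕ) • z = picOneClass K f c hc := by
  obtain ⟨E, _, _, _, ψ, σ1, σ2, r1, r2, -, hψ2, hσ1, hσ2, hr1, hr2, h3, h4, h11, h12, h21, h22⟩ :=
    exists_closed_field
  exact conc_main ψ σ1 σ2 r1 r2 hψ2 hσ1 hσ2 hr1 hr2 h3 h4 h11 h12 h21 h22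

end Pool.Agent.Results.MP_0fba91_ag.PicOneNotDivisible
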